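import Pool.Agent.R250.MC4

set_option autoImplicit false

/-!
# MP_16b0ee_an: values in discs, and holomorphic families

Let `h = log ψ'`, `ψ` in the class `Σ`.

1. For the whole class `Σ`, all `R > 1` and all complex `t` the mean of `|ψ'^t|` over `|z| = R` is at
   most `(R² / (R² - 1)) ^ (4 |t|²)`, and for `0 < a < 1 / 16` the integral of the question is at most
   `1 / (1 - 16 a)`, for all `R > 1`.
2. The integral of the question is bounded, uniformly for all `R > 1`, for all `ψ` of `Σ` such that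
   `|(|z|² - 1) z h'(z) - c| ≤ σ |z|` for `1 < |z| < 1 + δ`, with some complex number `c` (any one,
   depending on `ψ`), if `a σ² < 1`. For `σ = 1` this is the full range `0 < a < 1`. For `c = 0` this
   is a bound of the Bloch norm.
3. Let `ψ_s`, `|s| < 1`, be a holomorphic family of maps in `Σ` with `ψ_0(z) = z + b`. If
   `144 a k² < (4 - k²)²` then the integral of the question is bounded, uniformly for all such
   families, all `|s| ≤ k` and all `R > 1`. For `k ≤ √40 - 6 = 0.3245...` this is the full range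
   `0 < a < 1`. By the Beltrami equation the maps of `Σ` with a `k`-quasiconformal extension are of
   this form.
4. In the situation of 3 the mean of `|ψ_s'^t|` is at most
   `exp (10 |t|²) (R² / (R² - 1)) ^ (36 k² |t|² / (4 - k²)²)`.

The proof. 3: for fixed `v = 1 / z` the number `P = (1 - |v|²) v H_s'(v)`, `H_s(v) = h_s(1 / v)`, is a
holomorphic function of `s`, it vanishes at `s = 0`, and by the sharp bound in the class `Σ` it stays in
the disc with centre `2 |v|²` and radius `4 |v|`. By the Schwarz lemma it stays in a smaller disc with a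
different centre. In all the cases `P` is in a disc with centre `2 c₀ |v|²` and radius about `2 √κ |v|`.
A differential inequality for the mean of `exp (Re (conj t h))` then gives the exponent `κ |t|²`: the
centre drops out by a completion of the square. Gaussian averages over `t` give the integral of the
question.
-/

namespace Pool.Agent.Results.MP_16b0ee_an.DiscsAndFamilies

/-- The point `r e^{iθ}`. -/
noncomputable def circ (r θ : ℝ) : ℂ := (r : ℂ) * Complex.exp ((θ : ℂ) * Complex.I)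

/-- `ψ ∈ Σ` and `h = log ψ'` (the branch vanishing at infinity), exactly as in the problem. -/
def IsSigma (ψ h : ℂ → ℂ) : Prop :=
  DifferentiableOn ℂ ψ {z : ℂ | 1 < ‖z‖} ∧
  Set.InjOn ψ {z : ℂ | 1 < ‖z‖} ∧
  (∃ b : ℂ, Filter.Tendsto (fun z => ψ z - z) (Bornology.cobounded ℂ) (nhds b)) ∧
  DifferentiableOn ℂ h {z : ℂ | 1 < ‖z‖} ∧
  (∀ z : ℂ, 1 < ‖z‖ → Complex.exp (h z) = deriv ψ z) ∧
  Filter.Tendsto h (Bornology.cobounded ℂ) (nhds 0)

/-- The integral of Q1. -/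
noncomputable def marshall (a R : ℝ) (h : ℂ → ℂ) : ℝ :=
  (1 / (2 * Real.pi)) * ∫ θ in (0:ℝ)..(2 * Real.pi),
    Real.exp (a * ‖h (circ R θ)‖ ^ 2 / Real.log (R ^ 2 / (R ^ 2 - 1)))

/-- The mean of `|ψ'^t| = |exp (t h)|` over the circle of radius `R`. -/
noncomputable def powerMean (t : ℂ) (R : ℝ) (h : ℂ → ℂ) : ℝ :=
  (1 / (2 * Real.pi)) * ∫ θ in (0:ℝ)..(2 * Real.pi), ‖Complex.exp (t * h (circ R θ))‖

/-- A holomorphic family in `Σ`: maps `ψ s` of `Σ`, `|s| < 1`, with `h s = log (ψ s)'`, such that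
`s ↦ ψ s z` is holomorphic for every `|z| > 1`, and `ψ 0` is a translation. -/
def IsHolomorphicFamily (ψ h : ℂ → ℂ → ℂ) : Prop :=
  (∀ s : ℂ, ‖s‖ < 1 → IsSigma (ψ s) (h s)) ∧
  (∀ z : ℂ, 1 < ‖z‖ → DifferentiableOn ℂ (fun s => ψ s z) (Metric.ball 0 1)) ∧
  ∃ b : ℂ, ∀ z : ℂ, 1 < ‖z‖ → ψ 0 z = z + b

theorem powerMean_eq (t : ℂ) (R : ℝ) (h : ℂ → ℂ) : powerMean t R h =
    (1 / (2 * Real.pi)) * ∫ θ in (0:ℝ)..(2 * Real.pi),
      Real.exp ((starRingEnd ℂ) ((starRingEnd ℂ) t) *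
        h ((R : ℂ) * Complex.exp ((θ : ℂ) * Complex.I))).re := by
  unfold powerMean
  simp only [Complex.norm_exp, Complex.conj_conj]
  rfl

theorem result :
    (∀ ψ h : ℂ → ℂ, IsSigma ψ h → ∀ R : ℝ, 1 < R →
      (∀ t : ℂ, powerMean t R h ≤ (R ^ 2 / (R ^ 2 - 1)) ^ (4 * ‖t‖ ^ 2)) ∧
      (∀ a : ℝ, 0 < a → a < 1 / 16 → marshall a R h ≤ 1 / (1 - 16 * a))) ∧
    (∀ a σ δ : ℝ, 0 < a → 0 ≤ σ → a * σ ^ 2 < 1 → 0 < δ → ∃ C : ℝ, ∀ R : ℝ, 1 < R →
      ∀ (ψ h : ℂ → ℂ) (c : ℂ), IsSigma ψ h →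
      (∀ z : ℂ, 1 < ‖z‖ → ‖z‖ < 1 + δ →
        ‖((‖z‖ ^ 2 - 1 : ℝ) : ℂ) * (z * deriv h z) - c‖ ≤ σ * ‖z‖) →
      marshall a R h ≤ C) ∧
    (∀ a k : ℝ, 0 < a → 0 ≤ k → k ≤ 1 → 144 * a * k ^ 2 < (4 - k ^ 2) ^ 2 →
      ∃ C : ℝ, ∀ R : ℝ, 1 < R → ∀ ψ h : ℂ → ℂ → ℂ, IsHolomorphicFamily ψ h →
      ∀ s : ℂ, ‖s‖ < 1 → ‖s‖ ≤ k → marshall a R (h s) ≤ C) ∧
    (∀ k : ℝ, 0 ≤ k → k ≤ 1 → ∀ R : ℝ, 1 < R → ∀ ψ h : ℂ → ℂ → ℂ, IsHolomorphicFamily ψ h →
      ∀ s t : ℂ, ‖s‖ < 1 → ‖s‖ ≤ k → powerMean t R (h s) ≤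
        Real.exp (10 * ‖t‖ ^ 2) *
          (R ^ 2 / (R ^ 2 - 1)) ^ (36 * k ^ 2 / (4 - k ^ 2) ^ 2 * ‖t‖ ^ 2)) := by
  have hpi := Real.pi_pos
  refine ⟨?_, ?_, ?_, ?_⟩
  · intro ψ h hS R hR
    have S : Pool.Agent.R250.MC.IsSig ψ h := hS
    have hD := Pool.Agent.R250.MC.drift_sigma S.sg
    have hR2 : 0 < R ^ 2 - 1 := by nlinarith
    have hq : 0 < R ^ 2 / (R ^ 2 - 1) := by positivity
    refine ⟨fun t => ?_, fun a ha ha1 => ?_⟩
    · rw [powerMean_eq]
      have h1 := Pool.Agent.R250.MC.moments_ext S.hol (by norm_num) le_rfl hD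
        ((starRingEnd ℂ) t) hR
      rw [zero_mul, add_zero, RCLike.norm_conj] at h1
      calc _ ≤ (1 / (2 * Real.pi)) * (2 * Real.pi *
            Real.exp (‖t‖ ^ 2 * (4 * Real.log (R ^ 2 / (R ^ 2 - 1))))) :=
            mul_le_mul_of_nonneg_left h1 (by positivity)
        _ = Real.exp (‖t‖ ^ 2 * (4 * Real.log (R ^ 2 / (R ^ 2 - 1)))) := by field_simp
        _ = _ := by
          rw [Real.rpow_def_of_pos hq]
          congr 1
          ring
    · have e : 4 * a * (4 + 0 * Pool.Agent.R250.MC.Wf (R⁻¹ ^ 2) /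
          Real.log (R ^ 2 / (R ^ 2 - 1))) = 16 * a := by ring
      have h1 := Pool.Agent.R250.MC.square_ext S.hol (by norm_num) le_rfl hD hR ha
        (by rw [e]; linarith)
      rw [e] at h1
      exact h1
  · intro a σ δ ha hσ haσ hδ
    obtain ⟨C, hC⟩ := Pool.Agent.R250.MC.marshall_disc ha hσ haσ hδ
    refine ⟨C, fun R hR ψ h c hS hc => ?_⟩
    have S : Pool.Agent.R250.MC.IsSig ψ h := hS
    exact hC R c _ h hR S.hol S.sg hc
  · intro a k ha hk0 hk1 hak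
    obtain ⟨C, hC⟩ := Pool.Agent.R250.MC.fam_marshall ha hk0 hk1 hak
    exact ⟨C, fun R hR ψ h hF s hs hsk => hC R ψ h s hR hF hs hsk⟩
  · intro k _ hk1 R hR ψ h hF s t hs hsk
    have F : Pool.Agent.R250.MC.Fam ψ h := hF
    have hR2 : 0 < R ^ 2 - 1 := by nlinarith
    have hq : 0 < R ^ 2 / (R ^ 2 - 1) := by positivity
    rw [powerMean_eq]
    have h1 := Pool.Agent.R250.MC.fam_moments F hk1 hs hsk ((starRingEnd ℂ) t) hR
    rw [RCLike.norm_conj] at h1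
    calc _ ≤ (1 / (2 * Real.pi)) * (2 * Real.pi * Real.exp (‖t‖ ^ 2 *
          (36 * k ^ 2 / (4 - k ^ 2) ^ 2 * Real.log (R ^ 2 / (R ^ 2 - 1)) + 10))) :=
          mul_le_mul_of_nonneg_left h1 (by positivity)
      _ = Real.exp (‖t‖ ^ 2 * (36 * k ^ 2 / (4 - k ^ 2) ^ 2 *
            Real.log (R ^ 2 / (R ^ 2 - 1)) + 10)) := by field_simp
      _ = _ := by
        rw [Real.rpow_def_of_pos hq, ← Real.exp_add]
        congr 1
        ring

end Pool.Agent.Results.MP_16b0ee_an.DiscsAndFamilies
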