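import Pool.Agent.R302.SA.G3

set_option autoImplicit false

/-!
# MP_16b0ee_an: the strong Marshall bound for logarithmic derivatives with Hadamard gaps

Let `ψ` be in the class `Σ` and let `h = log ψ' = ∑ c_k z ^ (-n_k)` have Hadamard gaps,
`n_{k+1} ≥ q n_k`.

1. For `q = exp 120` the integral of the question is bounded, uniformly for all `R > 1` and all such
   `ψ` in `Σ`, for every `0 < a < 1` (the full range of the question). Nothing is assumed on the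
   coefficients.
2. For every `q > 1` it is bounded, uniformly for all `R > 1` and all such `ψ` with `|c_k| ≤ A`, if
   `a A² (1 + 8 / (q - 1)) < log q`. Since the maps of `Σ` allow coefficients of size greater than `1`,
   and `A² ≤ log q` may be large, the Bloch seminorm need not be at most `1` here.
3. The coefficients of `h` are at most `4 e`, for every `ψ` in `Σ` with gaps of any ratio `q > 1`.

The proof. 3: the function `P = (1 - |v|²) v H'(v)`, `H(v) = h(1/v)`, is in the disc with centre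
`2 |v|²` and radius `4 |v|`, and `n c_n |v|^n (1 - |v|²)` is a Fourier coefficient of `P - 2 |v|²`.
2: by the gaps `(∑ n_k x^(n_k))² ≤ ∑ n_k² (x^(2 n_k) + (2 / (q - 1)) x^(n_k))`, so the mean of
`exp (Re (conj t h))` over a circle is at most `exp (|t|² Φ)` with the explicit function
`Φ = A² ∑ (x^(2 n_k) / 4 + (2 / (q - 1)) x^(n_k))`, by the differential inequality for the mean; the
number of terms with `n_k ≤ 1 / log R` is at most `1 + log (1 / log R) / log q`. Gaussian averages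
over `t` give the integral of the question.
-/

namespace Pool.Agent.Results.MP_16b0ee_an.GapSeries

open Complex Metric Set Filter Topology MeasureTheory

/-- The point `r e^{iθ}`. -/
noncomputable def circ (r θ : ℝ) : ℂ := (r : ℂ) * Complex.exp ((θ : ℂ) * Complex.I)

/-- `ψ ∈ Σ` and `h = log ψ'` (the branch vanishing at infinity), exactly as in the problem. -/
def IsSigma (ψ h : ℂ → ℂ) : Prop :=
  DifferentiableOn ℂ ψ {z : ℂ | 1 < ‖z‖} ∧
  Set.InjOn ψ {z : ℂ | 1 < ‖z‖} ∧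
  (∃ b : ℂ, Filter.Tendsto (fun z => ψ z - z) (Bornology.cobounded ℂ) (nhds b)) ∧
  DifferentiableOn ℂ h {z : ℂ | 1 < ‖z‖} ∧
  (∀ z : ℂ, 1 < ‖z‖ → Complex.exp (h z) = deriv ψ z) ∧
  Filter.Tendsto h (Bornology.cobounded ℂ) (nhds 0)

/-- The integral of Q1. -/
noncomputable def marshall (a R : ℝ) (h : ℂ → ℂ) : ℝ :=
  (1 / (2 * Real.pi)) * ∫ θ in (0:ℝ)..(2 * Real.pi),
    Real.exp (a * ‖h (circ R θ)‖ ^ 2 / Real.log (R ^ 2 / (R ^ 2 - 1)))

/-- `h(z) = ∑ c_k z ^ (-n_k)` for `|z| > 1`, with `n_0 ≥ 1` and `n_{k+1} ≥ q n_k`. -/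
def IsGapSeries (q : ℝ) (h : ℂ → ℂ) (c : ℕ → ℂ) (n : ℕ → ℕ) : Prop :=
  1 ≤ n 0 ∧ (∀ k, q * n k ≤ n (k + 1)) ∧
  ∀ z : ℂ, 1 < ‖z‖ → HasSum (fun k => c k * z⁻¹ ^ n k) (h z)

open Pool.Agent.R302.SA Pool.Agent.W677.Mar

theorem IsGapSeries.gaps {q : ℝ} {h : ℂ → ℂ} {c : ℕ → ℂ} {n : ℕ → ℕ} (H : IsGapSeries q h c n) :
    Gaps q n := ⟨H.1, H.2.1⟩

theorem IsGapSeries.sum {q : ℝ} (hq : 1 < q) {h : ℂ → ℂ} {c : ℕ → ℂ} {n : ℕ → ℕ}
    (H : IsGapSeries q h c n) :
    ∀ v ∈ ball (0 : ℂ) 1, HasSum (fun k => c k * v ^ n k) (hat h 0 v) := by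
  intro v hv
  by_cases hv0 : v = 0
  · subst hv0
    rw [hat_zero]
    have e : (fun k => c k * (0 : ℂ) ^ n k) = fun _ => 0 := by
      funext k
      have := gaps_one hq H.gaps k
      rw [zero_pow (by omega), mul_zero]
    rw [e]
    exact hasSum_zero
  · rw [hat_ne _ _ hv0]
    have h1 := H.2.2 v⁻¹ (inv_ext hv hv0)
    rw [inv_inv] at h1
    exact h1

theorem coeff {q : ℝ} (hq : 1 < q) {ψ h : ℂ → ℂ} {c : ℕ → ℂ} {n : ℕ → ℕ} (hS : IsSigma ψ h)
    (H : IsGapSeries q h c n) (k : ℕ) : ‖c k‖ ≤ 4 * Real.exp 1 := by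
  have S : Pool.Agent.R250.MC.IsSig ψ h := hS
  exact coeff_le S.sg (gaps_mono hq H.gaps).injective (H.sum hq) k (gaps_one hq H.gaps k)

theorem bounded (a q A : ℝ) (ha : 0 < a) (hq : 1 < q)
    (haq : a * (A ^ 2 * (1 + 8 / (q - 1))) < Real.log q) :
    ∃ C : ℝ, ∀ R : ℝ, 1 < R → ∀ (ψ h : ℂ → ℂ) (c : ℕ → ℂ) (n : ℕ → ℕ),
      IsSigma ψ h → IsGapSeries q h c n → (∀ k, ‖c k‖ ≤ A) → marshall a R h ≤ C := by
  obtain ⟨C, hC⟩ := marshall_gap (A := A) ha hq haq
  refine ⟨max C (Real.exp (a * 1)), fun R hR ψ h c n hS H hA => ?_⟩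
  have S : Pool.Agent.R250.MC.IsSig ψ h := hS
  rcases lt_or_ge R 2 with hR2 | hR2
  · exact (hC R _ h c n hR hR2 S.hol S.sg H.gaps hA (H.sum hq)).trans (le_max_left _ _)
  · refine le_trans (marshall_small ha hR S.hol S.sg ?_) (le_max_right _ _)
    have h3 : 0 < R ^ 2 - 1 := by nlinarith
    have h4 : R ^ 2 / (R ^ 2 - 1) ≤ 2 := by
      rw [div_le_iff₀ h3]
      nlinarith
    have h5 := Real.log_le_log (by positivity) h4
    have h6 := Real.log_two_lt_d9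
    linarith

/-- **Result.** -/
theorem result :
    (∀ a : ℝ, 0 < a → a < 1 → ∃ C : ℝ, ∀ R : ℝ, 1 < R →
      ∀ (ψ h : ℂ → ℂ) (c : ℕ → ℂ) (n : ℕ → ℕ), IsSigma ψ h → IsGapSeries (Real.exp 120) h c n →
      marshall a R h ≤ C) ∧
    (∀ a q A : ℝ, 0 < a → 1 < q → a * (A ^ 2 * (1 + 8 / (q - 1))) < Real.log q →
      ∃ C : ℝ, ∀ R : ℝ, 1 < R → ∀ (ψ h : ℂ → ℂ) (c : ℕ → ℂ) (n : ℕ → ℕ),
      IsSigma ψ h → IsGapSeries q h c n → (∀ k, ‖c k‖ ≤ A) → marshall a R h ≤ C) ∧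
    (∀ q : ℝ, 1 < q → ∀ (ψ h : ℂ → ℂ) (c : ℕ → ℂ) (n : ℕ → ℕ), IsSigma ψ h →
      IsGapSeries q h c n → ∀ k, ‖c k‖ ≤ 4 * Real.exp 1) := by
  refine ⟨fun a ha ha1 => ?_, fun a q A ha hq haq => bounded a q A ha hq haq,
    fun q hq ψ h c n hS H k => coeff hq hS H k⟩
  have hq : 1 < Real.exp 120 := Real.one_lt_exp_iff.2 (by norm_num)
  have hcond : a * ((4 * Real.exp 1) ^ 2 * (1 + 8 / (Real.exp 120 - 1))) <
      Real.log (Real.exp 120) := by
    rw [Real.log_exp]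
    have h1 : 3721 ≤ Real.exp 120 := by
      have h2 := Real.add_one_le_exp (60 : ℝ)
      have h3 : Real.exp 120 = Real.exp 60 * Real.exp 60 := by
        rw [← Real.exp_add]; norm_num
      rw [h3]
      nlinarith
    have h2 : 8 / (Real.exp 120 - 1) ≤ 8 / 3720 :=
      div_le_div_of_nonneg_left (by norm_num) (by norm_num) (by linarith)
    have h3 : Real.exp 1 < 2.7182818286 := Real.exp_one_lt_d9
    have h4 : 0 < Real.exp 1 := Real.exp_pos 1
    have h5 : (4 * Real.exp 1) ^ 2 ≤ 118.3 := by nlinarith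
    have h6 : 0 ≤ 8 / (Real.exp 120 - 1) := by
      apply div_nonneg (by norm_num); linarith
    have h7 : (4 * Real.exp 1) ^ 2 * (1 + 8 / (Real.exp 120 - 1)) ≤ 118.3 * (1 + 8 / 3720) := by
      apply mul_le_mul h5 (by linarith) (by linarith) (by norm_num)
    have h8 : 0 ≤ (4 * Real.exp 1) ^ 2 * (1 + 8 / (Real.exp 120 - 1)) := by positivity
    calc a * ((4 * Real.exp 1) ^ 2 * (1 + 8 / (Real.exp 120 - 1)))
        ≤ 1 * ((4 * Real.exp 1) ^ 2 * (1 + 8 / (Real.exp 120 - 1))) :=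
          mul_le_mul_of_nonneg_right ha1.le h8
      _ < 120 := by
          rw [one_mul]
          refine h7.trans_lt ?_
          norm_num
  obtain ⟨C, hC⟩ := bounded a (Real.exp 120) (4 * Real.exp 1) ha hq hcond
  exact ⟨C, fun R hR ψ h c n hS H => hC R hR ψ h c n hS H (coeff hq hS H)⟩

end Pool.Agent.Results.MP_16b0ee_an.GapSeries
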