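import Pool.Agent.R302.SA.M4

set_option autoImplicit false

/-!
# MP_16b0ee_an: the strong Marshall bound from mean squares over the scales

Let `h = log ψ'`, `ψ` in the class `Σ`, and let `σ` be a continuous function on `(1, ∞)` with
`|(|z|² - 1) z h'(z) - c| ≤ σ(|z|) |z|` for `|z| > 1`, with some complex number `c`, `|c| ≤ K`
(for `c = 0` this is a bound of the Bloch quantity `(|z|² - 1) |h'(z)|` on every circle). If
`a σ₀² < 1` and

  `∫_R^2 σ(r)² dr / (r - 1) ≤ σ₀² log (1 / (R - 1)) + K`,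

then the integral of the question, at the radius `R`, is bounded by a constant which depends on `a`,
`σ₀` and `K` only. So for `σ₀ = 1` this is the full range `0 < a < 1` of the question: only the mean
square of the Bloch quantity over the scales `log (1 / (r - 1))` matters, and on a given set of scales
it may be as large as the class `Σ` allows (up to `6`).

The proof. Let `G(s)` be the mean of `exp (Re (conj t h))` over the circle `|z| = exp (-s)`, `s < 0`.
Then `G'' ≤ p G' + q G` with a drift `p` from the centre `c` and with `q` from `σ`. The function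
`exp (|t|² Φ(s))`, where `Φ'' = σ² x / (1 - x)²`, `x = exp (2 s)`, is a supersolution (a completion of
the square removes the centre), and `Φ(s)` is at most one fourth of the integral above, up to a
constant, by `w log (1 / w) ≤ (1 - w²) / 2`. Gaussian averages over `t` give the integral of the
question. For bounded `log (1 / (R - 1))` Goluzin's inequality is used.
-/

namespace Pool.Agent.Results.MP_16b0ee_an.ScaleAverages

/-- The point `r e^{iθ}`. -/
noncomputable def circ (r θ : ℝ) : ℂ := (r : ℂ) * Complex.exp ((θ : ℂ) * Complex.I)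

/-- `ψ ∈ Σ` and `h = log ψ'` (the branch vanishing at infinity), exactly as in the problem. -/
def IsSigma (ψ h : ℂ → ℂ) : Prop :=
  DifferentiableOn ℂ ψ {z : ℂ | 1 < ‖z‖} ∧
  Set.InjOn ψ {z : ℂ | 1 < ‖z‖} ∧
  (∃ b : ℂ, Filter.Tendsto (fun z => ψ z - z) (Bornology.cobounded ℂ) (nhds b)) ∧
  DifferentiableOn ℂ h {z : ℂ | 1 < ‖z‖} ∧
  (∀ z : ℂ, 1 < ‖z‖ → Complex.exp (h z) = deriv ψ z) ∧
  Filter.Tendsto h (Bornology.cobounded ℂ) (nhds 0)

/-- The integral of Q1. -/
noncomputable def marshall (a R : ℝ) (h : ℂ → ℂ) : ℝ :=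
  (1 / (2 * Real.pi)) * ∫ θ in (0:ℝ)..(2 * Real.pi),
    Real.exp (a * ‖h (circ R θ)‖ ^ 2 / Real.log (R ^ 2 / (R ^ 2 - 1)))

/-- `|(|z|² - 1) z h'(z) - c| ≤ σ(|z|) |z|` for all `|z| > 1`. -/
def RadiusBound (h : ℂ → ℂ) (c : ℂ) (σ : ℝ → ℝ) : Prop :=
  ∀ z : ℂ, 1 < ‖z‖ → ‖((‖z‖ ^ 2 - 1 : ℝ) : ℂ) * (z * deriv h z) - c‖ ≤ σ ‖z‖ * ‖z‖

/-- **Result.** Mean squares over the scales, with slope less than `1 / a`, give Q1's bound. -/
theorem result (a σ₀ K : ℝ) (ha : 0 < a) (haσ : a * σ₀ ^ 2 < 1) :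
    ∃ C : ℝ, ∀ R : ℝ, 1 < R → R < 2 → ∀ (ψ h : ℂ → ℂ) (c : ℂ) (σ : ℝ → ℝ),
      IsSigma ψ h → ‖c‖ ≤ K → ContinuousOn σ (Set.Ioi 1) → RadiusBound h c σ →
      ∫ r in R..2, σ r ^ 2 / (r - 1) ≤ σ₀ ^ 2 * Real.log (1 / (R - 1)) + K →
      marshall a R h ≤ C := by
  obtain ⟨C, hC⟩ := Pool.Agent.R302.SA.marshall_avg (K := K) ha haσ
  refine ⟨C, fun R hR hR2 ψ h c σ hS hc hσ hD hint => ?_⟩
  have S : Pool.Agent.R250.MC.IsSig ψ h := hS
  exact hC R c σ _ h hR hR2 S.hol S.sg hc hσ hD hint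

end Pool.Agent.Results.MP_16b0ee_an.ScaleAverages
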